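import Pool.Agent.Helper99.BK.Stmts

/-!
bk_mods PH: pigeonhole on a grid of generators; lower bound for the number of pairs.
-/

set_option autoImplicit false

namespace Pool.Helper99.BK

open NumberField Finset

theorem ph_mult_sum {K : Type} [Field K] [NumberField K] (hK : Module.finrank ℚ K = 3) :
    ∑ w : InfinitePlace K, (InfinitePlace.mult w : ℝ) = 3 := by
  have h := InfinitePlace.sum_mult_eq (K := K)
  rw [hK] at h
  exact_mod_cast h

theorem ph_pos {K : Type} [Field K] [NumberField K] (π : 𝓞 K) (hπ : π ≠ 0) (w : InfinitePlace K) :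
    0 < w (π : K) := by
  rw [InfinitePlace.pos_iff]
  intro h
  exact hπ (RingOfIntegers.coe_eq_zero_iff.1 h)

theorem ph_log_norm {K : Type} [Field K] [NumberField K] (π : 𝓞 K) (hπ : π ≠ 0) :
    ∑ w : InfinitePlace K, (InfinitePlace.mult w : ℝ) * Real.log (w (π : K)) =
      Real.log |(Algebra.norm ℤ π : ℝ)| := by
  have h := InfinitePlace.prod_eq_abs_norm (π : K)
  have h1 : ((abs (Algebra.norm ℚ (π : K)) : ℚ) : ℝ) = |(Algebra.norm ℤ π : ℝ)| := by
    rw [← Algebra.coe_norm_int]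
    push_cast
    rfl
  rw [← h1, ← h, Real.log_prod (fun w _ => pow_ne_zero _ (ph_pos π hπ w).ne')]
  exact sum_congr rfl fun w _ => (Real.log_pow _ _).symm

theorem ph_norm_nonneg {K : Type} [Field K] [NumberField K] (π : 𝓞 K) (hπ : π ≠ 0) :
    0 ≤ Real.log |(Algebra.norm ℤ π : ℝ)| := by
  apply Real.log_nonneg
  have h1 : (1 : ℤ) ≤ |Algebra.norm ℤ π| := Int.one_le_abs (Algebra.norm_ne_zero_iff.mpr hπ)
  exact_mod_cast h1

/-- the sizes `t_w` of the grid point `n` -/
noncomputable def ph_t {K : Type} [Field K] (w0 : InfinitePlace K) (h : ℝ)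
    (W' : Fintype {w : InfinitePlace K // w ≠ w0}) (n : {w : InfinitePlace K // w ≠ w0} → ℝ)
    (w : InfinitePlace K) : ℝ :=
  open Classical in
  if hw : w ≠ w0 then 7 * h * n ⟨w, hw⟩ else
    -(∑ v : {w : InfinitePlace K // w ≠ w0}, (InfinitePlace.mult v.1 : ℝ) * (7 * h * n v)) /
      (InfinitePlace.mult w0 : ℝ)

theorem ph_t_ne {K : Type} [Field K] (w0 : InfinitePlace K) (h : ℝ)
    (W' : Fintype {w : InfinitePlace K // w ≠ w0}) (n : {w : InfinitePlace K // w ≠ w0} → ℝ)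
    (w : {w : InfinitePlace K // w ≠ w0}) : ph_t w0 h W' n w.1 = 7 * h * n w := by
  unfold ph_t
  rw [dif_pos w.2]

theorem ph_t_self {K : Type} [Field K] (w0 : InfinitePlace K) (h : ℝ)
    (W' : Fintype {w : InfinitePlace K // w ≠ w0}) (n : {w : InfinitePlace K // w ≠ w0} → ℝ) :
    ph_t w0 h W' n w0 =
      -(∑ v : {w : InfinitePlace K // w ≠ w0}, (InfinitePlace.mult v.1 : ℝ) * (7 * h * n v)) /
      (InfinitePlace.mult w0 : ℝ) := by
  unfold ph_t
  rw [dif_neg (not_not.2 rfl)]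

theorem ph_t_sum {K : Type} [Field K] [NumberField K] [DecidableEq (InfinitePlace K)]
    (w0 : InfinitePlace K) (h : ℝ) (n : {w : InfinitePlace K // w ≠ w0} → ℝ) :
    ∑ w, (InfinitePlace.mult w : ℝ) * ph_t w0 h inferInstance n w = 0 := by
  rw [Fintype.sum_eq_add_sum_subtype_ne _ w0, ph_t_self]
  have h1 : (InfinitePlace.mult w0 : ℝ) ≠ 0 := by
    have := InfinitePlace.one_le_mult (w := w0)
    linarith
  have e : ∑ v : {w : InfinitePlace K // w ≠ w0}, (InfinitePlace.mult v.1 : ℝ) *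
      ph_t w0 h inferInstance n v.1 =
      ∑ v : {w : InfinitePlace K // w ≠ w0}, (InfinitePlace.mult v.1 : ℝ) * (7 * h * n v) :=
    sum_congr rfl fun v _ => by rw [ph_t_ne]
  rw [e, mul_div_cancel₀ _ h1, neg_add_cancel]

theorem ph_t_diff {K : Type} [Field K] [NumberField K] [DecidableEq (InfinitePlace K)]
    (hK : Module.finrank ℚ K = 3)
    (w0 : InfinitePlace K) (h : ℝ) (hh : 0 ≤ h) (n n' : {w : InfinitePlace K // w ≠ w0} → ℝ) (m : ℝ)
    (hm : 0 ≤ m) (hn : ∀ v, |n v - n' v| ≤ m) (w : InfinitePlace K) :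
    |ph_t w0 h inferInstance n w - ph_t w0 h inferInstance n' w| ≤ 14 * h * m := by
  by_cases hw : w = w0
  · subst hw
    rw [ph_t_self, ph_t_self]
    have h1 := InfinitePlace.one_le_mult (w := w)
    have h0 : (0 : ℝ) < (InfinitePlace.mult w : ℝ) := by linarith
    have e : -(∑ v : {w' : InfinitePlace K // w' ≠ w}, (InfinitePlace.mult v.1 : ℝ) * (7 * h * n v)) /
        (InfinitePlace.mult w : ℝ) -
        -(∑ v : {w' : InfinitePlace K // w' ≠ w}, (InfinitePlace.mult v.1 : ℝ) * (7 * h * n' v)) /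
        (InfinitePlace.mult w : ℝ) =
        (∑ v : {w' : InfinitePlace K // w' ≠ w}, (InfinitePlace.mult v.1 : ℝ) * (7 * h * (n' v - n v))) /
        (InfinitePlace.mult w : ℝ) := by
      rw [← sub_div, neg_sub_neg, ← sum_sub_distrib]
      congr 1
      exact sum_congr rfl fun v _ => by ring
    rw [e, abs_div, abs_of_pos h0, div_le_iff₀ h0]
    have h2 : |∑ v : {w' : InfinitePlace K // w' ≠ w}, (InfinitePlace.mult v.1 : ℝ) *
        (7 * h * (n' v - n v))| ≤ ∑ v : {w' : InfinitePlace K // w' ≠ w},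
        (InfinitePlace.mult v.1 : ℝ) * (7 * h * m) := by
      refine (abs_sum_le_sum_abs _ _).trans (sum_le_sum fun v _ => ?_)
      have h3 := InfinitePlace.one_le_mult (w := v.1)
      rw [abs_mul, abs_mul, abs_of_nonneg (by linarith : (0 : ℝ) ≤ (InfinitePlace.mult v.1 : ℝ)),
        abs_of_nonneg (by linarith : (0 : ℝ) ≤ 7 * h), abs_sub_comm]
      exact mul_le_mul_of_nonneg_left (mul_le_mul_of_nonneg_left (hn v) (by linarith)) (by linarith)
    have h4 := ph_mult_sum hK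
    rw [Fintype.sum_eq_add_sum_subtype_ne _ w] at h4
    rw [← sum_mul] at h2
    have h5 : ∑ v : {w' : InfinitePlace K // w' ≠ w}, (InfinitePlace.mult v.1 : ℝ) ≤ 2 := by linarith
    have h6 : 0 ≤ 7 * h * m := by positivity
    have h7 := mul_le_mul_of_nonneg_right h5 h6
    have h8 : 14 * h * m * 1 ≤ 14 * h * m * (InfinitePlace.mult w : ℝ) :=
      mul_le_mul_of_nonneg_left h1 (by positivity)
    linarith
  · have e1 := ph_t_ne w0 h inferInstance n ⟨w, hw⟩
    have e2 := ph_t_ne w0 h inferInstance n' ⟨w, hw⟩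
    simp only at e1 e2
    rw [e1, e2, ← mul_sub, abs_mul, abs_of_nonneg (by linarith : (0 : ℝ) ≤ 7 * h)]
    have h1 := mul_le_mul_of_nonneg_left (hn ⟨w, hw⟩) (by linarith : (0 : ℝ) ≤ 7 * h)
    have h2 : 0 ≤ 7 * h * m := by positivity
    linarith

theorem st_PH (h1 : ST_PHa) (h2 : ST_IDF) (h3 : ST_TTF) : ST_PH := by
  refine ⟨20000, by norm_num, ?_⟩
  intro K _ _ hK π hπ A h ν ρ hh hdisc hA hN hν hρ
  classical
  obtain ⟨w0⟩ : Nonempty (InfinitePlace K) := inferInstance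
  have hh0 : 0 < h := by linarith
  have hA0 : 0 < A := by linarith
  have hρ0 : 0 < ρ := by nlinarith
  have hρh : 20000 * h ≤ ρ := by nlinarith
  have hρA : 20000 * A ≤ ρ := by nlinarith
  obtain ⟨m, hm⟩ : ∃ m : ℕ, m = ⌊ρ / (100 * h)⌋₊ := ⟨_, rfl⟩
  obtain ⟨k0, hk0⟩ : ∃ k0 : ℕ, k0 = ⌊ρ / (2 * A)⌋₊ := ⟨_, rfl⟩
  have hm1 : (m : ℝ) * (100 * h) ≤ ρ := by
    have h4 := Nat.floor_le (by positivity : 0 ≤ ρ / (100 * h))
    rw [← hm, le_div_iff₀ (by positivity)] at h4
    exact h4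
  have hm2 : ρ / (100 * h) ≤ m + 1 := by
    rw [hm]
    exact (Nat.lt_floor_add_one _).le
  have hk1 : (k0 : ℝ) * (2 * A) ≤ ρ := by
    have h4 := Nat.floor_le (by positivity : 0 ≤ ρ / (2 * A))
    rw [← hk0, le_div_iff₀ (by positivity)] at h4
    exact h4
  have hk2 : ρ / (2 * A) ≤ k0 + 1 := by
    rw [hk0]
    exact (Nat.lt_floor_add_one _).le
  obtain ⟨a, ha⟩ : ∃ a : ℝ, a = Real.log |(Algebra.norm ℤ π : ℝ)| := ⟨_, rfl⟩
  have ha0 : 0 ≤ a := by rw [ha]; exact ph_norm_nonneg π hπ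
  have haA : a ≤ A := by rw [ha]; exact hN
  -- the grid
  obtain ⟨nn, hnn⟩ : ∃ nn : ({w : InfinitePlace K // w ≠ w0} → Fin (m + 1)) →
      {w : InfinitePlace K // w ≠ w0} → ℝ, ∀ x v, nn x v = ((x v : ℕ) : ℝ) := ⟨_, fun x v => rfl⟩
  have key : ∀ x : ({w : InfinitePlace K // w ≠ w0} → Fin (m + 1)) × Fin (k0 + 1),
      ∃ c : 𝓞 K, c ≠ 0 ∧ (∀ w : InfinitePlace K, |Real.log (w (c : K)) -
        (ph_t w0 h inferInstance (nn x.1) w + ((x.2 : ℕ) : ℝ) * (Real.log (w (π : K)) - a / 3))| ≤ 3 * h) ∧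
      Ideal.span {c} ∈ ID K (2 * Real.sqrt |(NumberField.discr K : ℝ)|) := by
    intro x
    refine h1 K hK h hh hdisc _ ?_
    have e1 := ph_t_sum w0 h (nn x.1)
    have e2 := ph_log_norm π hπ
    have e3 := ph_mult_sum hK
    rw [← ha] at e2
    have e4 : ∑ w : InfinitePlace K, (InfinitePlace.mult w : ℝ) *
        (ph_t w0 h inferInstance (nn x.1) w + ((x.2 : ℕ) : ℝ) * (Real.log (w (π : K)) - a / 3)) =
        ∑ w : InfinitePlace K, (InfinitePlace.mult w : ℝ) * ph_t w0 h inferInstance (nn x.1) w +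
        ((x.2 : ℕ) : ℝ) * (∑ w : InfinitePlace K, (InfinitePlace.mult w : ℝ) * Real.log (w (π : K)) -
        (∑ w : InfinitePlace K, (InfinitePlace.mult w : ℝ)) * (a / 3)) := by
      rw [sum_mul, ← sum_sub_distrib, mul_sum, ← sum_add_distrib]
      exact sum_congr rfl fun w _ => by ring
    rw [e4, e1, e2, e3]
    ring
  choose c hc0 hc1 hc2 using key
  have hTT := h3 K π hπ A ρ hA0
  have hID := h2 K (2 * Real.sqrt |(NumberField.discr K : ℝ)|)
  -- fibres
  have hfib : ∀ J ∈ hID.toFinset, (univ.filter (fun x => Ideal.span {c x} = J)).card ≤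
      (TT K π A ρ).ncard := by
    intro J _
    rcases (univ.filter (fun x => Ideal.span {c x} = J)).eq_empty_or_nonempty with he | ⟨z, hz⟩
    · rw [he, card_empty]
      exact Nat.zero_le _
    · rw [mem_filter] at hz
      have hass : ∀ x, Ideal.span {c x} = J → ∃ u : (𝓞 K)ˣ, c x * u = c z := by
        intro x hx
        exact Ideal.span_singleton_eq_span_singleton.1 (hx.trans hz.2.symm)
      obtain ⟨U, hU⟩ : ∃ U : ({w : InfinitePlace K // w ≠ w0} → Fin (m + 1)) × Fin (k0 + 1) → (𝓞 K)ˣ,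
          ∀ x, Ideal.span {c x} = J → c x * U x = c z := by
        refine ⟨fun x => if hx : Ideal.span {c x} = J then (hass x hx).choose else 1, fun x hx => ?_⟩
        dsimp only
        rw [dif_pos hx]
        exact (hass x hx).choose_spec
      rw [Set.ncard_eq_toFinset_card _ hTT]
      refine card_le_card_of_injOn (fun x => (((x.2 : ℕ) : ℤ) - ((z.2 : ℕ) : ℤ), U x)) ?_ ?_
      · intro x hx
        have hx1 : Ideal.span {c x} = J := (mem_filter.1 hx).2
        rw [Set.Finite.coe_toFinset]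
        have hk : |((x.2 : ℕ) : ℝ) - ((z.2 : ℕ) : ℝ)| ≤ k0 := by
          have b1 : ((x.2 : ℕ) : ℝ) ≤ k0 := by exact_mod_cast Nat.lt_succ_iff.1 x.2.2
          have b2 : ((z.2 : ℕ) : ℝ) ≤ k0 := by exact_mod_cast Nat.lt_succ_iff.1 z.2.2
          have b3 : (0 : ℝ) ≤ ((x.2 : ℕ) : ℝ) := Nat.cast_nonneg _
          have b4 : (0 : ℝ) ≤ ((z.2 : ℕ) : ℝ) := Nat.cast_nonneg _
          rw [abs_le]
          constructor <;> linarith
        constructor
        · show |((((x.2 : ℕ) : ℤ) - ((z.2 : ℕ) : ℤ) : ℤ) : ℝ)| * A ≤ ρ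
          push_cast
          have b5 := mul_le_mul_of_nonneg_right hk hA0.le
          linarith
        · intro σ
          show |Real.log ‖σ (((U x : (𝓞 K)ˣ) : 𝓞 K) : K)‖ +
            ((((x.2 : ℕ) : ℤ) - ((z.2 : ℕ) : ℤ) : ℤ) : ℝ) * Real.log ‖σ (π : K)‖| ≤ ρ
          push_cast
          have e1 : ∀ y : K, ‖σ y‖ = (InfinitePlace.mk σ) y := fun y => (InfinitePlace.apply σ y).symm
          rw [e1, e1]
          set w := InfinitePlace.mk σ with hw
          have hcx := ph_pos (c x) (hc0 x) w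
          have hcz := ph_pos (c z) (hc0 z) w
          have e2 : Real.log (w (c z : K)) = Real.log (w (c x : K)) +
              Real.log (w (((U x : (𝓞 K)ˣ) : 𝓞 K) : K)) := by
            rw [← hU x hx1]
            have hne : w (((U x : (𝓞 K)ˣ) : 𝓞 K) : K) ≠ 0 := (ph_pos _ (U x).ne_zero w).ne'
            have e3 : ((c x * (U x : 𝓞 K) : 𝓞 K) : K) = (c x : K) * (((U x : (𝓞 K)ˣ) : 𝓞 K) : K) := rfl
            rw [e3, map_mul, Real.log_mul hcx.ne' hne]
          have f1 := hc1 x w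
          have f2 := hc1 z w
          have f3 := ph_t_diff hK w0 h hh0.le (nn z.1) (nn x.1) m (Nat.cast_nonneg _) (by
            intro v
            rw [hnn, hnn]
            have b1 : ((x.1 v : ℕ) : ℝ) ≤ m := by exact_mod_cast Nat.lt_succ_iff.1 (x.1 v).2
            have b2 : ((z.1 v : ℕ) : ℝ) ≤ m := by exact_mod_cast Nat.lt_succ_iff.1 (z.1 v).2
            have b3 : (0 : ℝ) ≤ ((x.1 v : ℕ) : ℝ) := Nat.cast_nonneg _
            have b4 : (0 : ℝ) ≤ ((z.1 v : ℕ) : ℝ) := Nat.cast_nonneg _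
            rw [abs_le]
            constructor <;> linarith) w
          have f4 : |(((x.2 : ℕ) : ℝ) - ((z.2 : ℕ) : ℝ)) * (a / 3)| ≤ k0 * (A / 3) := by
            rw [abs_mul, abs_of_nonneg (by positivity : 0 ≤ a / 3)]
            exact mul_le_mul hk (by linarith) (by positivity) (Nat.cast_nonneg _)
          rw [abs_le] at f1 f2 f3 f4 ⊢
          constructor <;> nlinarith
      · intro x hx y hy hxy
        have hx1 : Ideal.span {c x} = J := (mem_filter.1 hx).2
        have hy1 : Ideal.span {c y} = J := (mem_filter.1 hy).2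
        have g1 : ((x.2 : ℕ) : ℤ) - ((z.2 : ℕ) : ℤ) = ((y.2 : ℕ) : ℤ) - ((z.2 : ℕ) : ℤ) :=
          congrArg Prod.fst hxy
        have g2 : U x = U y := congrArg Prod.snd hxy
        have g3 : (x.2 : ℕ) = (y.2 : ℕ) := by omega
        have g4 : c x = c y := by
          have b1 := hU x hx1
          have b2 := hU y hy1
          rw [← g2] at b2
          exact mul_right_cancel₀ (U x).ne_zero (b1.trans b2.symm)
        refine Prod.ext (funext fun v => ?_) (Fin.ext g3)
        have f1 := hc1 x v.1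
        have f2 := hc1 y v.1
        rw [g4, g3] at f1
        rw [ph_t_ne, hnn] at f1 f2
        apply Fin.ext
        by_contra hne
        have f3 : (1 : ℝ) ≤ |((x.1 v : ℕ) : ℝ) - ((y.1 v : ℕ) : ℝ)| := by
          have b1 : (1 : ℤ) ≤ |((x.1 v : ℕ) : ℤ) - ((y.1 v : ℕ) : ℤ)| := by
            apply Int.one_le_abs
            omega
          exact_mod_cast b1
        have f4 : |7 * h * ((x.1 v : ℕ) : ℝ) - 7 * h * ((y.1 v : ℕ) : ℝ)| ≤ 6 * h := by
          rw [abs_le] at f1 f2 ⊢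
          constructor <;> linarith
        rw [← mul_sub, abs_mul, abs_of_pos (by positivity : 0 < 7 * h)] at f4
        have f5 := mul_le_mul_of_nonneg_left f3 (by positivity : 0 ≤ 7 * h)
        linarith
  -- counting
  have hcount : Fintype.card (({w : InfinitePlace K // w ≠ w0} → Fin (m + 1)) × Fin (k0 + 1)) ≤
      hID.toFinset.card * (TT K π A ρ).ncard := by
    rw [← card_univ, card_eq_sum_card_fiberwise (f := fun x => Ideal.span {c x}) (t := hID.toFinset)
      (fun x _ => by rw [Set.Finite.coe_toFinset]; exact hc2 x)]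
    exact (sum_le_card_nsmul _ _ _ hfib).trans (le_of_eq (by rw [smul_eq_mul]))
  have hW : Fintype.card {w : InfinitePlace K // w ≠ w0} = Fintype.card (InfinitePlace K) - 1 := by
    rw [Fintype.card_subtype_compl, Fintype.card_subtype_eq]
  rw [Fintype.card_prod, Fintype.card_fun, Fintype.card_fin, Fintype.card_fin, hW,
    ← Set.ncard_eq_toFinset_card _ hID] at hcount
  have hs1 : 1 ≤ Fintype.card (InfinitePlace K) := Fintype.card_pos_iff.2 ⟨w0⟩
  have hs3 : Fintype.card (InfinitePlace K) ≤ 3 := by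
    have e1 : (Fintype.card (InfinitePlace K) : ℝ) ≤ 3 := by
      rw [← ph_mult_sum hK]
      calc (Fintype.card (InfinitePlace K) : ℝ) = ∑ w : InfinitePlace K, (1 : ℝ) := by simp
        _ ≤ _ := sum_le_sum fun w _ => InfinitePlace.one_le_mult
    exact_mod_cast e1
  obtain ⟨s', hs'⟩ : ∃ s', Fintype.card (InfinitePlace K) = s' + 1 :=
    ⟨Fintype.card (InfinitePlace K) - 1, by omega⟩
  rw [hs'] at hcount hs3 ⊢
  rw [Nat.add_sub_cancel] at hcount ⊢
  have hs2 : s' ≤ 2 := by omega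
  obtain ⟨T, hT⟩ : ∃ T : ℝ, T = ((TT K π A ρ).ncard : ℝ) := ⟨_, rfl⟩
  rw [← hT]
  have hT0 : 0 ≤ T := by rw [hT]; exact Nat.cast_nonneg _
  have hreal : ((m : ℝ) + 1) ^ s' * (k0 + 1) ≤ ν * T := by
    have e1 : ((m : ℝ) + 1) ^ s' * (k0 + 1) ≤
        ((ID K (2 * Real.sqrt |(NumberField.discr K : ℝ)|)).ncard : ℝ) * T := by
      rw [hT]
      exact_mod_cast hcount
    exact e1.trans (mul_le_mul_of_nonneg_right hν hT0)
  have hlow : (ρ / (100 * h)) ^ s' * (ρ / (2 * A)) ≤ ν * T := by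
    refine le_trans (mul_le_mul (pow_le_pow_left₀ (by positivity) hm2 s') hk2 (by positivity)
      (by positivity)) hreal
  have e5 : ρ ^ (s' + 1) = (100 ^ s' * 2) * (A * h ^ s') * ((ρ / (100 * h)) ^ s' * (ρ / (2 * A))) := by
    rw [div_pow, mul_pow]
    field_simp
    ring
  rw [e5]
  have e6 : (100 : ℝ) ^ s' * 2 ≤ 20000 := by
    have : (100 : ℝ) ^ s' ≤ 100 ^ 2 := pow_le_pow_right₀ (by norm_num) hs2
    linarith
  calc (100 ^ s' * 2) * (A * h ^ s') * ((ρ / (100 * h)) ^ s' * (ρ / (2 * A)))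
      ≤ (100 ^ s' * 2) * (A * h ^ s') * (ν * T) :=
        mul_le_mul_of_nonneg_left hlow (by positivity)
    _ ≤ 20000 * (A * h ^ s') * (ν * T) := by
        have hνT : 0 ≤ ν * T := le_trans (by positivity) hlow
        exact mul_le_mul_of_nonneg_right (mul_le_mul_of_nonneg_right e6 (by positivity)) hνT
    _ = 20000 * ν * A * h ^ s' * T := by ring

end Pool.Helper99.BK
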